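import Pool.Agent.Helper62.LoopKnots

/-!
Mod p loop moves are not classified by the linking pairing of the p-fold branched cyclic cover: for
every `p > 1` coprime to 6 the unknot and the trefoil have branched covers with trivial first
homology, but they are not related by mod p loop moves.
-/

namespace Pool.Agent.Results.MP_51fc9a_gt.Disproof

open Pool.Agent.Helper62.Loop

theorem result (p : ℕ) (h1 : 1 < p) (h6 : Nat.Coprime p 6) :
    ∃ U T : MK, U.1 = ⟨1, [], 0⟩ ∧ T.1 = ⟨2, [(0, true), (0, true), (0, true)], 0⟩ ∧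
      Subsingleton (U.1.H1 p) ∧ Subsingleton (T.1.H1 p) ∧ ¬ Related p U T :=
  ⟨unknot, trefoil, rfl, rfl, unknot_H1 p h6, trefoil_H1 p h6, not_related p h1 h6⟩

end Pool.Agent.Results.MP_51fc9a_gt.Disproof
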